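import Pool.Agent.H4ES.Defs

/-!
Joins of two cycles (more generally of two graphs all of whose components are cycles of length at
least three) and their subdivisions.
-/

namespace Pool.Agent.H88ES.Cycle

open Real Pool.Agent.H4ES

/-- The permutation `σ` of `C` has no fixed points and no cycles of length two: the graph on `C`
with the edges `{c, σ c}` is a disjoint union of cycles of length at least three. -/
structure Cyc {C : Type} (σ : Equiv.Perm C) : Prop where
  one : ∀ c, σ c ≠ c
  two : ∀ c, σ (σ c) ≠ c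

/-- The join of the graphs of `σ` and `τ`: the 3-simplices are `{c, σ c} * {d, τ d}`. -/
def join {C D : Type} (σ : Equiv.Perm C) (τ : Equiv.Perm D) (hσ : Cyc σ) (hτ : Cyc τ) :
    Cplx (C ⊕ D) (C × D) where
  v := fun p => ![Sum.inl p.1, Sum.inl (σ p.1), Sum.inr p.2, Sum.inr (τ p.2)]
  inj := by
    rintro ⟨c, d⟩ a b hab
    have h1 := hσ.one c
    have h2 := hτ.one d
    fin_cases a <;> fin_cases b <;> simp_all [eq_comm]
  dist := by
    rintro ⟨c, d⟩ ⟨c', d'⟩ hr
    have m : ∀ x, x ∈ Set.range ![(Sum.inl c : C ⊕ D), Sum.inl (σ c), Sum.inr d, Sum.inr (τ d)] ↔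
        x ∈ Set.range ![(Sum.inl c' : C ⊕ D), Sum.inl (σ c'), Sum.inr d', Sum.inr (τ d')] := by
      intro x
      exact Iff.of_eq (congrArg (x ∈ ·) hr)
    have e1 := (m (Sum.inl c)).1 ⟨0, rfl⟩
    have e2 := (m (Sum.inl (σ c))).1 ⟨1, rfl⟩
    have e3 := (m (Sum.inr d)).1 ⟨2, rfl⟩
    have e4 := (m (Sum.inr (τ d))).1 ⟨3, rfl⟩
    simp only [Matrix.range_cons, Matrix.range_empty, Set.mem_union, Set.mem_singleton_iff,
      Sum.inl.injEq, Sum.inr.injEq, reduceCtorEq, Set.union_empty, or_false, false_or,
      EmbeddingLike.apply_eq_iff_eq] at e1 e2 e3 e4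
    have hc : c = c' := by
      rcases e1 with h1 | h1
      · exact h1
      · rcases e2 with h2 | h2
        · exfalso
          rw [h1] at h2
          exact hσ.two c' h2
        · exact h2
    have hd : d = d' := by
      rcases e3 with h1 | h1
      · exact h1
      · rcases e4 with h2 | h2
        · exfalso
          rw [h1] at h2
          exact hτ.two d' h2
        · exact h2
    rw [hc, hd]

/-- The geometric realisation of `K`: the points `x` with barycentric coordinates `x v` which lie
in some 3-simplex. -/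
def pts {V ι : Type} [Fintype V] (K : Cplx V ι) : Set (V → ℝ) :=
  {x | (∀ v, 0 ≤ x v) ∧ ∑ v, x v = 1 ∧ ∃ T, ∀ v, x v ≠ 0 → ∃ a, K.v T a = v}

/-- `K'`, with its vertices put at the points `f` of the realisation of `K`, is a subdivision of
`K`: every 3-simplex of `K'` is mapped into a 3-simplex of `K`, and the map of the realisations
which is affine on the simplices of `K'` is bijective. -/
def IsSubdivision {V ι V' ι' : Type} [Fintype V] [Fintype V'] (K : Cplx V ι) (K' : Cplx V' ι')
    (f : V' → V → ℝ) : Prop :=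
  (∀ T', ∃ T, ∀ a, (∀ v, 0 ≤ f (K'.v T' a) v) ∧ ∑ v, f (K'.v T' a) v = 1 ∧
      ∀ v, f (K'.v T' a) v ≠ 0 → ∃ b, K.v T b = v) ∧
    Set.BijOn (fun (y : V' → ℝ) (v : V) => ∑ v', y v' * f v' v) (pts K') (pts K)

/-- The non-negative functions with support in an edge. -/
def coneX {C : Type} (σ : Equiv.Perm C) : Set (C → ℝ) :=
  {x | (∀ c, 0 ≤ x c) ∧ ∃ c, ∀ v, x v ≠ 0 → v = c ∨ v = σ c}

/-- The linear map with the matrix `M`. -/
noncomputable def lin {C C' : Type} [Fintype C'] (M : C' → C → ℝ) (u : C' → ℝ) (c : C) : ℝ :=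
  ∑ p, u p * M p c

/-- The graph of `σ'` is a subdivision of the graph of `σ`, its vertices being at the points `M`. -/
structure Fine {C C' : Type} [Fintype C] [Fintype C'] (σ : Equiv.Perm C) (σ' : Equiv.Perm C')
    (M : C' → C → ℝ) : Prop where
  nonneg : ∀ p c, 0 ≤ M p c
  sum : ∀ p, ∑ c, M p c = 1
  edge : ∀ p, ∃ c, ∀ v, (M p v ≠ 0 ∨ M (σ' p) v ≠ 0) → v = c ∨ v = σ c
  bij : Set.BijOn (lin M) (coneX σ') (coneX σ)

/-- The cycles of `σ` with one more vertex, `none`, on the edge `{c0, σ c0}`. -/
def opt {C : Type} [DecidableEq C] (σ : Equiv.Perm C) (c0 : C) : Equiv.Perm (Option C) where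
  toFun p := p.elim (some (σ c0)) fun c => if c = c0 then none else some (σ c)
  invFun p := p.elim (some c0) fun d => if d = σ c0 then none else some (σ.symm d)
  left_inv := by
    rintro (_ | c)
    · simp
    · by_cases h : c = c0
      · simp [h]
      · simp [h]
  right_inv := by
    rintro (_ | c)
    · simp
    · by_cases h : c = σ c0
      · simp [h]
      · have : σ.symm c ≠ c0 := fun e => h (by rw [← e]; simp)
        simp [h, this]

/-- The position of the vertices after one step. -/
noncomputable def mat {C : Type} [DecidableEq C] (σ : Equiv.Perm C) (c0 : C) (p : Option C)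
    (c : C) : ℝ :=
  p.elim (((if c = c0 then 1 else 0) + (if c = σ c0 then 1 else 0)) / 2)
    fun d => if c = d then 1 else 0

/-- The position of the vertices of the subdivided join. -/
def pos {C C' D D' : Type} (M : C' → C → ℝ) (N : D' → D → ℝ) : C' ⊕ D' → C ⊕ D → ℝ
  | Sum.inl p, Sum.inl c => M p c
  | Sum.inr p, Sum.inr c => N p c
  | _, _ => 0

end Pool.Agent.H88ES.Cycle
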