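import Pool.Agent.H88ES.Cyc

/-!
The join of two graphs which are disjoint unions of cycles of length at least three, given by
permutations `σ` and `τ`: tetrahedra and edge degrees (written by helper37).
-/

namespace Pool.Agent.H88ES.Deg

open Pool.Agent.H4ES Pool.Agent.H88ES.Cycle

variable {C D : Type}

section
variable (σ : Equiv.Perm C) (τ : Equiv.Perm D) (hσ : Cyc σ) (hτ : Cyc τ)

lemma ed_zero (T : C × D) :
    (join σ τ hσ hτ).ed T 0 = s(Sum.inl T.1, Sum.inl (σ T.1)) := rfl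
lemma ed_one (T : C × D) : (join σ τ hσ hτ).ed T 1 = s(Sum.inl T.1, Sum.inr T.2) := rfl
lemma ed_two (T : C × D) : (join σ τ hσ hτ).ed T 2 = s(Sum.inl T.1, Sum.inr (τ T.2)) := rfl
lemma ed_three (T : C × D) : (join σ τ hσ hτ).ed T 3 = s(Sum.inl (σ T.1), Sum.inr T.2) := rfl
lemma ed_four (T : C × D) :
    (join σ τ hσ hτ).ed T 4 = s(Sum.inl (σ T.1), Sum.inr (τ T.2)) := rfl
lemma ed_five (T : C × D) :
    (join σ τ hσ hτ).ed T 5 = s(Sum.inr T.2, Sum.inr (τ T.2)) := rfl

lemma ex_ed (T : C × D) (e : Sym2 (C ⊕ D)) :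
    (∃ k, (join σ τ hσ hτ).ed T k = e) ↔
      s(Sum.inl T.1, Sum.inl (σ T.1)) = e ∨ s(Sum.inl T.1, Sum.inr T.2) = e ∨
      s(Sum.inl T.1, Sum.inr (τ T.2)) = e ∨ s(Sum.inl (σ T.1), Sum.inr T.2) = e ∨
      s(Sum.inl (σ T.1), Sum.inr (τ T.2)) = e ∨ s(Sum.inr T.2, Sum.inr (τ T.2)) = e := by
  constructor
  · rintro ⟨k, hk⟩
    fin_cases k
    · exact Or.inl hk
    · exact Or.inr (Or.inl hk)
    · exact Or.inr (Or.inr (Or.inl hk))
    · exact Or.inr (Or.inr (Or.inr (Or.inl hk)))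
    · exact Or.inr (Or.inr (Or.inr (Or.inr (Or.inl hk))))
    · exact Or.inr (Or.inr (Or.inr (Or.inr (Or.inr hk))))
  · rintro (h | h | h | h | h | h)
    · exact ⟨0, h⟩
    · exact ⟨1, h⟩
    · exact ⟨2, h⟩
    · exact ⟨3, h⟩
    · exact ⟨4, h⟩
    · exact ⟨5, h⟩

end

/-- edges of the first graph -/
def left (e : Sym2 (C ⊕ D)) : Prop := ∃ a b, e = s(Sum.inl a, Sum.inl b)

/-- edges of the second graph -/
def right (e : Sym2 (C ⊕ D)) : Prop := ∃ a b, e = s(Sum.inr a, Sum.inr b)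

lemma left_ed (σ : Equiv.Perm C) (τ : Equiv.Perm D) (hσ : Cyc σ) (hτ : Cyc τ) (T : C × D)
    (k : Fin 6) : left ((join σ τ hσ hτ).ed T k) ↔ k = 0 := by
  unfold left
  fin_cases k
  · simp only [Fin.zero_eta, Fin.isValue, iff_true]
    exact ⟨T.1, σ T.1, rfl⟩
  all_goals simp [Cplx.ed, join, ei, ej]

lemma right_ed (σ : Equiv.Perm C) (τ : Equiv.Perm D) (hσ : Cyc σ) (hτ : Cyc τ) (T : C × D)
    (k : Fin 6) : right ((join σ τ hσ hτ).ed T k) ↔ k = 5 := by
  unfold right
  by_cases h : k = 5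
  · subst h
    simp only [iff_true]
    exact ⟨T.2, τ T.2, rfl⟩
  · simp only [h, iff_false]
    revert h
    fin_cases k <;> intro h <;> first | exact absurd rfl h | simp [Cplx.ed, join, ei, ej]

section
variable [Fintype C] [DecidableEq C] [Fintype D] [DecidableEq D]
variable (σ : Equiv.Perm C) (τ : Equiv.Perm D) (hσ : Cyc σ) (hτ : Cyc τ)

theorem deg_left (c : C) :
    (join σ τ hσ hτ).deg s(Sum.inl c, Sum.inl (σ c)) = Fintype.card D := by
  have h1 : (Finset.univ.filter fun T : C × D =>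
      ∃ k, (join σ τ hσ hτ).ed T k = s(Sum.inl c, Sum.inl (σ c))) =
      ({c} : Finset C) ×ˢ (Finset.univ : Finset D) := by
    ext ⟨i', j'⟩
    rw [Finset.mem_filter, ex_ed]
    simp only [Finset.mem_univ, true_and, Sym2.eq_iff, Sum.inl.injEq, reduceCtorEq, and_false,
      false_and, or_false, false_or, Finset.mem_product, Finset.mem_singleton, and_true]
    constructor
    · rintro (⟨h1, -⟩ | ⟨h1, h2⟩)
      · exact h1
      · exfalso
        rw [h1] at h2
        exact hσ.two c h2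
    · intro h1
      exact Or.inl ⟨h1, by rw [h1]⟩
  unfold Cplx.deg
  rw [h1, Finset.card_product, Finset.card_singleton, one_mul, Finset.card_univ]

theorem deg_right (d : D) :
    (join σ τ hσ hτ).deg s(Sum.inr d, Sum.inr (τ d)) = Fintype.card C := by
  have h1 : (Finset.univ.filter fun T : C × D =>
      ∃ k, (join σ τ hσ hτ).ed T k = s(Sum.inr d, Sum.inr (τ d))) =
      (Finset.univ : Finset C) ×ˢ ({d} : Finset D) := by
    ext ⟨i', j'⟩
    rw [Finset.mem_filter, ex_ed]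
    simp only [Finset.mem_univ, true_and, Sym2.eq_iff, Sum.inr.injEq, reduceCtorEq, and_false,
      false_and, or_false, false_or, Finset.mem_product, Finset.mem_singleton]
    constructor
    · rintro (⟨h1, -⟩ | ⟨h1, h2⟩)
      · exact h1
      · exfalso
        rw [h1] at h2
        exact hτ.two d h2
    · intro h1
      exact Or.inl ⟨h1, by rw [h1]⟩
  unfold Cplx.deg
  rw [h1, Finset.card_product, Finset.card_singleton, mul_one, Finset.card_univ]

theorem deg_mixed (c : C) (d : D) :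
    (join σ τ hσ hτ).deg s(Sum.inl c, Sum.inr d) = 4 := by
  have hc : c ≠ σ.symm c := fun h => hσ.one c (by
    have := congrArg σ h
    simpa using this)
  have hd : d ≠ τ.symm d := fun h => hτ.one d (by
    have := congrArg τ h
    simpa using this)
  have h1 : (Finset.univ.filter fun T : C × D =>
      ∃ k, (join σ τ hσ hτ).ed T k = s(Sum.inl c, Sum.inr d)) =
      ({c, σ.symm c} : Finset C) ×ˢ ({d, τ.symm d} : Finset D) := by
    ext ⟨i', j'⟩
    rw [Finset.mem_filter, ex_ed]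
    simp only [Finset.mem_univ, true_and, Sym2.eq_iff, Sum.inr.injEq, Sum.inl.injEq,
      reduceCtorEq, and_false, false_and, or_false, false_or, Finset.mem_product,
      Finset.mem_insert, Finset.mem_singleton, Equiv.eq_symm_apply]
    tauto
  unfold Cplx.deg
  rw [h1, Finset.card_product, Finset.card_pair hc, Finset.card_pair hd]

/-- the three degrees -/
theorem deg_edges {e : Sym2 (C ⊕ D)} (he : e ∈ (join σ τ hσ hτ).edges) :
    (left e → (join σ τ hσ hτ).deg e = Fintype.card D) ∧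
    (right e → (join σ τ hσ hτ).deg e = Fintype.card C) ∧
    (¬left e → ¬right e → (join σ τ hσ hτ).deg e = 4) := by
  obtain ⟨⟨T, k⟩, -, rfl⟩ := Finset.mem_image.1 he
  rw [left_ed, right_ed]
  refine ⟨?_, ?_, ?_⟩
  · rintro rfl
    exact deg_left σ τ hσ hτ T.1
  · rintro rfl
    exact deg_right σ τ hσ hτ T.2
  · intro h0 h5
    fin_cases k
    · exact absurd rfl h0
    · exact deg_mixed σ τ hσ hτ T.1 T.2
    · exact deg_mixed σ τ hσ hτ T.1 (τ T.2)
    · exact deg_mixed σ τ hσ hτ (σ T.1) T.2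
    · exact deg_mixed σ τ hσ hτ (σ T.1) (τ T.2)
    · exact absurd rfl h5

/-- edges of the two graphs -/
def red (e : Sym2 (C ⊕ D)) : Prop :=
  (∃ a b, e = s(Sum.inl a, Sum.inl b)) ∨ ∃ a b, e = s(Sum.inr a, Sum.inr b)

omit [Fintype C] [DecidableEq C] [Fintype D] [DecidableEq D] in
lemma red_ed (T : C × D) (k : Fin 6) : red ((join σ τ hσ hτ).ed T k) ↔ k = 0 ∨ k = 5 := by
  rw [← left_ed σ τ hσ hτ T k, ← right_ed σ τ hσ hτ T k]
  rfl

theorem deg_not_red {e : Sym2 (C ⊕ D)} (he : e ∈ (join σ τ hσ hτ).edges) (hr : ¬red e) :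
    (join σ τ hσ hτ).deg e = 4 :=
  (deg_edges σ τ hσ hτ he).2.2 (fun h => hr (Or.inl h)) (fun h => hr (Or.inr h))

/-- for graphs with the same number of vertices -/
theorem deg_red {e : Sym2 (C ⊕ D)} (he : e ∈ (join σ τ hσ hτ).edges) (hr : red e)
    (hc : Fintype.card C = Fintype.card D) : (join σ τ hσ hτ).deg e = Fintype.card C := by
  rcases hr with h | h
  · rw [(deg_edges σ τ hσ hτ he).1 h, hc]
  · exact (deg_edges σ τ hσ hτ he).2.1 h

end

end Pool.Agent.H88ES.Deg
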