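import Pool.Agent.H88ES.Opt

/-!
Transitivity and iteration of the subdivision of cycles.
-/

namespace Pool.Agent.H88ES.Cycle

open Real Pool.Agent.H4ES

theorem Fine.refl {C : Type} [Fintype C] [DecidableEq C] (σ : Equiv.Perm C) :
    Fine σ σ (fun p c => if c = p then 1 else 0) where
  nonneg := by
    intro p c
    split_ifs <;> norm_num
  sum := by
    intro p
    simp
  edge := by
    intro p
    refine ⟨p, ?_⟩
    rintro v (hv | hv)
    · left
      by_contra h
      exact hv (if_neg h)
    · right
      by_contra h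
      exact hv (if_neg h)
  bij := by
    have : lin (fun (p c : C) => if c = p then (1 : ℝ) else 0) = id := by
      funext u c
      unfold lin
      simp
    rw [this]
    exact Set.bijOn_id _

theorem Fine.trans {C C' C'' : Type} [Fintype C] [Fintype C'] [Fintype C'']
    {σ : Equiv.Perm C} {σ' : Equiv.Perm C'} {σ'' : Equiv.Perm C''}
    {M : C' → C → ℝ} {N : C'' → C' → ℝ} (hM : Fine σ σ' M) (hN : Fine σ' σ'' N) :
    Fine σ σ'' (fun p c => ∑ q, N p q * M q c) where
  nonneg := fun p c => Finset.sum_nonneg fun q _ => mul_nonneg (hN.nonneg p q) (hM.nonneg q c)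
  sum := by
    intro p
    rw [Finset.sum_comm]
    have : ∀ q ∈ (Finset.univ : Finset C'), ∑ c, N p q * M q c = N p q := by
      intro q _
      rw [← Finset.mul_sum, hM.sum, mul_one]
    rw [Finset.sum_congr rfl this, hN.sum]
  edge := by
    intro p
    obtain ⟨q0, hq⟩ := hN.edge p
    obtain ⟨c, hc⟩ := hM.edge q0
    refine ⟨c, ?_⟩
    have key : ∀ r : C'', (∀ q, N r q ≠ 0 → q = q0 ∨ q = σ' q0) →
        ∀ v, ∑ q, N r q * M q v ≠ 0 → v = c ∨ v = σ c := by
      intro r hr v hv
      obtain ⟨q, _, hq⟩ := Finset.exists_ne_zero_of_sum_ne_zero hv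
      have h1 : N r q ≠ 0 := left_ne_zero_of_mul hq
      have h2 : M q v ≠ 0 := right_ne_zero_of_mul hq
      rcases hr q h1 with rfl | rfl
      · exact hc v (Or.inl h2)
      · exact hc v (Or.inr h2)
    rintro v (hv | hv)
    · exact key p (fun q h => hq q (Or.inl h)) v hv
    · exact key (σ'' p) (fun q h => hq q (Or.inr h)) v hv
  bij := by
    have : lin (fun (p : C'') (c : C) => ∑ q, N p q * M q c) = lin M ∘ lin N := by
      funext u c
      unfold lin
      simp only [Function.comp_apply]
      simp only [Finset.mul_sum, Finset.sum_mul]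
      rw [Finset.sum_comm]
      refine Finset.sum_congr rfl fun q _ => Finset.sum_congr rfl fun p _ => ?_
      ring
    rw [this]
    exact hM.bij.comp hN.bij

theorem exists_fine {C : Type} [Fintype C] [DecidableEq C] [Nonempty C] (σ : Equiv.Perm C)
    (h : Cyc σ) (n : ℕ) :
    ∃ (C' : Type) (_ : Fintype C') (_ : DecidableEq C') (_ : Nonempty C')
      (σ' : Equiv.Perm C') (_ : Cyc σ') (M : C' → C → ℝ),
      Fintype.card C' = Fintype.card C + n ∧ Fine σ σ' M := by
  induction n with
  | zero => exact ⟨C, inferInstance, inferInstance, inferInstance, σ, h, _, rfl, Fine.refl σ⟩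
  | succ n ih =>
    obtain ⟨C', i1, i2, i3, σ', h', M, hc, hM⟩ := ih
    obtain ⟨c0⟩ := id i3
    refine ⟨Option C', inferInstance, inferInstance, inferInstance, opt σ' c0, cyc_opt h' c0, _,
      ?_, hM.trans (fine_opt σ' c0 h')⟩
    rw [Fintype.card_option, hc]
    ring

end Pool.Agent.H88ES.Cycle
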