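import Pool.Agent.H88ES.Cyc

/-!
The join of two subdivided cycles is a subdivision of the join.
-/

namespace Pool.Agent.H88ES.Cycle

open Real Pool.Agent.H4ES

section
variable {C C' D D' : Type} [Fintype C'] [Fintype D']

theorem map_inl (M : C' → C → ℝ) (N : D' → D → ℝ) (y : C' ⊕ D' → ℝ) (c : C) :
    ∑ v', y v' * pos M N v' (Sum.inl c) = lin M (fun p => y (Sum.inl p)) c := by
  rw [Fintype.sum_sum_type]
  simp [pos, lin]

theorem map_inr (M : C' → C → ℝ) (N : D' → D → ℝ) (y : C' ⊕ D' → ℝ) (c : D) :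
    ∑ v', y v' * pos M N v' (Sum.inr c) = lin N (fun p => y (Sum.inr p)) c := by
  rw [Fintype.sum_sum_type]
  simp [pos, lin]
end

theorem mem_pts {C D : Type} [Fintype C] [Fintype D] (σ : Equiv.Perm C) (τ : Equiv.Perm D)
    (hσ : Cyc σ) (hτ : Cyc τ) (x : C ⊕ D → ℝ) :
    x ∈ pts (join σ τ hσ hτ) ↔ (fun c => x (Sum.inl c)) ∈ coneX σ ∧
      (fun c => x (Sum.inr c)) ∈ coneX τ ∧
      ∑ c, x (Sum.inl c) + ∑ c, x (Sum.inr c) = 1 := by
  constructor
  · rintro ⟨h0, h1, ⟨c, d⟩, h2⟩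
    refine ⟨⟨fun _ => h0 _, c, fun v hv => ?_⟩, ⟨fun _ => h0 _, d, fun v hv => ?_⟩, ?_⟩
    · obtain ⟨a, ha⟩ := h2 _ hv
      fin_cases a <;> simp [join] at ha
      · exact Or.inl ha.symm
      · exact Or.inr ha.symm
    · obtain ⟨a, ha⟩ := h2 _ hv
      fin_cases a <;> simp [join] at ha
      · exact Or.inl ha.symm
      · exact Or.inr ha.symm
    · rw [← h1, Fintype.sum_sum_type]
  · rintro ⟨⟨h0, c, hc⟩, ⟨h0', d, hd⟩, h1⟩
    refine ⟨?_, ?_, ⟨c, d⟩, ?_⟩
    · rintro (v | v)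
      · exact h0 v
      · exact h0' v
    · rw [Fintype.sum_sum_type]
      exact h1
    · rintro (v | v) hv
      · rcases hc v hv with rfl | rfl
        · exact ⟨0, rfl⟩
        · exact ⟨1, rfl⟩
      · rcases hd v hv with rfl | rfl
        · exact ⟨2, rfl⟩
        · exact ⟨3, rfl⟩

theorem Fine.lin_sum {C C' : Type} [Fintype C] [Fintype C'] {σ : Equiv.Perm C}
    {σ' : Equiv.Perm C'} {M : C' → C → ℝ} (h : Fine σ σ' M) (u : C' → ℝ) :
    ∑ c, lin M u c = ∑ p, u p := by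
  unfold lin
  rw [Finset.sum_comm]
  refine Finset.sum_congr rfl fun p _ => ?_
  rw [← Finset.mul_sum, h.sum, mul_one]

theorem join_sub {C C' D D' : Type} [Fintype C] [Fintype C'] [Fintype D] [Fintype D']
    {σ : Equiv.Perm C} {σ' : Equiv.Perm C'} {τ : Equiv.Perm D} {τ' : Equiv.Perm D'}
    {M : C' → C → ℝ} {N : D' → D → ℝ} (hM : Fine σ σ' M) (hN : Fine τ τ' N)
    (hσ : Cyc σ) (hτ : Cyc τ) (hσ' : Cyc σ') (hτ' : Cyc τ') :
    IsSubdivision (join σ τ hσ hτ) (join σ' τ' hσ' hτ') (pos M N) := by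
  refine ⟨?_, ?_, ?_, ?_⟩
  · rintro ⟨p, q⟩
    obtain ⟨c, hc⟩ := hM.edge p
    obtain ⟨d, hd⟩ := hN.edge q
    refine ⟨(c, d), fun a => ?_⟩
    have hl : ∀ r : C', (∀ v, 0 ≤ pos M N (Sum.inl r) v) ∧ ∑ v, pos M N (Sum.inl r) v = 1 := by
      intro r
      refine ⟨?_, ?_⟩
      · rintro (v | v)
        · exact hM.nonneg r v
        · exact le_rfl
      · rw [Fintype.sum_sum_type]
        simp only [pos, Finset.sum_const_zero, add_zero]
        exact hM.sum r
    have hr : ∀ r : D', (∀ v, 0 ≤ pos M N (Sum.inr r) v) ∧ ∑ v, pos M N (Sum.inr r) v = 1 := by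
      intro r
      refine ⟨?_, ?_⟩
      · rintro (v | v)
        · exact le_rfl
        · exact hN.nonneg r v
      · rw [Fintype.sum_sum_type]
        simp only [pos, Finset.sum_const_zero, zero_add]
        exact hN.sum r
    have hl2 : ∀ r : C', (∀ v, M r v ≠ 0 → v = c ∨ v = σ c) →
        ∀ v, pos M N (Sum.inl r) v ≠ 0 → ∃ b, (join σ τ hσ hτ).v (c, d) b = v := by
      rintro r hr (v | v) hv
      · rcases hr v hv with rfl | rfl
        · exact ⟨0, rfl⟩
        · exact ⟨1, rfl⟩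
      · exact absurd rfl hv
    have hr2 : ∀ r : D', (∀ v, N r v ≠ 0 → v = d ∨ v = τ d) →
        ∀ v, pos M N (Sum.inr r) v ≠ 0 → ∃ b, (join σ τ hσ hτ).v (c, d) b = v := by
      rintro r hr (v | v) hv
      · exact absurd rfl hv
      · rcases hr v hv with rfl | rfl
        · exact ⟨2, rfl⟩
        · exact ⟨3, rfl⟩
    fin_cases a
    · exact ⟨(hl p).1, (hl p).2, hl2 p fun v hv => hc v (Or.inl hv)⟩
    · exact ⟨(hl _).1, (hl _).2, hl2 (σ' p) fun v hv => hc v (Or.inr hv)⟩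
    · exact ⟨(hr q).1, (hr q).2, hr2 q fun v hv => hd v (Or.inl hv)⟩
    · exact ⟨(hr _).1, (hr _).2, hr2 (τ' q) fun v hv => hd v (Or.inr hv)⟩
  · intro y hy
    rw [mem_pts] at hy ⊢
    simp only [map_inl, map_inr]
    refine ⟨hM.bij.mapsTo hy.1, hN.bij.mapsTo hy.2.1, ?_⟩
    rw [hM.lin_sum, hN.lin_sum]
    exact hy.2.2
  · intro y hy y' hy' hyy
    rw [mem_pts] at hy hy'
    have e1 : lin M (fun p => y (Sum.inl p)) = lin M (fun p => y' (Sum.inl p)) := by
      funext c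
      rw [← map_inl M N, ← map_inl M N]
      exact congrFun hyy (Sum.inl c)
    have e2 : lin N (fun p => y (Sum.inr p)) = lin N (fun p => y' (Sum.inr p)) := by
      funext c
      rw [← map_inr M N, ← map_inr M N]
      exact congrFun hyy (Sum.inr c)
    have f1 := hM.bij.injOn hy.1 hy'.1 e1
    have f2 := hN.bij.injOn hy.2.1 hy'.2.1 e2
    funext v
    rcases v with v | v
    · exact congrFun f1 v
    · exact congrFun f2 v
  · intro x hx
    rw [mem_pts] at hx
    obtain ⟨u, hu, hux⟩ := hM.bij.surjOn hx.1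
    obtain ⟨w, hw, hwx⟩ := hN.bij.surjOn hx.2.1
    refine ⟨Sum.elim u w, ?_, ?_⟩
    · rw [mem_pts]
      refine ⟨hu, hw, ?_⟩
      simp only [Sum.elim_inl, Sum.elim_inr]
      rw [← hM.lin_sum u, ← hN.lin_sum w, hux, hwx]
      exact hx.2.2
    · funext v
      rcases v with v | v
      · show ∑ v', Sum.elim u w v' * pos M N v' (Sum.inl v) = x (Sum.inl v)
        rw [map_inl]
        exact congrFun hux v
      · show ∑ v', Sum.elim u w v' * pos M N v' (Sum.inr v) = x (Sum.inr v)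
        rw [map_inr]
        exact congrFun hwx v

end Pool.Agent.H88ES.Cycle
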