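import Pool.Agent.H88ES.Three
import Pool.Agent.H88ES.JoinSub
import Pool.Agent.H88ES.Iter
import Pool.Agent.H88ES.Deg

/-!
Einstein metrics on joins of cycles.
-/

namespace Pool.Agent.H88ES.Cycle

open Real Pool.Agent.H4ES

theorem card_ge {C : Type} [Fintype C] [DecidableEq C] [Nonempty C] {σ : Equiv.Perm C}
    (h : Cyc σ) : 3 ≤ Fintype.card C := by
  obtain ⟨c⟩ := ‹Nonempty C›
  have h1 : c ≠ σ c := (h.one c).symm
  have h2 : c ≠ σ (σ c) := (h.two c).symm
  have h3 : σ c ≠ σ (σ c) := (h.one (σ c)).symm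
  have h4 : ({c, σ c, σ (σ c)} : Finset C).card = 3 := by
    rw [Finset.card_insert_of_notMem, Finset.card_pair h3]
    simp [h1, h2]
  rw [← h4]
  exact Finset.card_le_univ _

theorem einstein_join {C D : Type} [Fintype C] [DecidableEq C] [Nonempty C] [Fintype D]
    [DecidableEq D] [Nonempty D] (σ : Equiv.Perm C) (τ : Equiv.Perm D) (hσ : Cyc σ)
    (hτ : Cyc τ) : ∃ z, (join σ τ hσ hτ).IsEinstein z := by
  classical
  obtain ⟨s, u, _, _, _, h⟩ := Three.three (join σ τ hσ hτ) H88ES.Deg.left H88ES.Deg.right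
    (Fintype.card C) (Fintype.card D) (card_ge hσ) (card_ge hτ)
    (H88ES.Deg.left_ed σ τ hσ hτ) (H88ES.Deg.right_ed σ τ hσ hτ)
    (fun e he => H88ES.Deg.deg_edges σ τ hσ hτ he)
  exact ⟨_, h⟩

end Pool.Agent.H88ES.Cycle
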