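import Pool.Agent.H88ES.Cyc

/-!
One more vertex on an edge of the cycles.
-/

namespace Pool.Agent.H88ES.Cycle

open Real Pool.Agent.H4ES

variable {C : Type} [DecidableEq C]

theorem opt_none (σ : Equiv.Perm C) (c0 : C) : opt σ c0 none = some (σ c0) := rfl

theorem opt_some (σ : Equiv.Perm C) (c0 c : C) :
    opt σ c0 (some c) = if c = c0 then none else some (σ c) := rfl

theorem cyc_opt {σ : Equiv.Perm C} (h : Cyc σ) (c0 : C) : Cyc (opt σ c0) where
  one := by
    rintro (_ | c)
    · simp [opt_none]
    · rw [opt_some]
      split_ifs with h1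
      · simp
      · simp [h.one c]
  two := by
    rintro (_ | c)
    · rw [opt_none, opt_some, if_neg (h.one c0)]
      simp
    · rw [opt_some]
      split_ifs with h1
      · rw [opt_none, h1]
        simp [h.one c0]
      · rw [opt_some]
        split_ifs with h2
        · simp
        · simp [h.two c]

variable [Fintype C]

theorem lin_mat (σ : Equiv.Perm C) (c0 : C) (h : Cyc σ) (u : Option C → ℝ) (c : C) :
    lin (mat σ c0) u c = u (some c) + if c = c0 ∨ c = σ c0 then u none / 2 else 0 := by
  unfold lin
  rw [Fintype.sum_option]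
  have h1 : ∑ d, u (some d) * mat σ c0 (some d) c = u (some c) := by
    rw [Finset.sum_eq_single c]
    · simp [mat]
    · intro d _ hd
      simp [mat, Ne.symm hd]
    · intro hc
      exact absurd (Finset.mem_univ _) hc
  rw [h1]
  have h2 : u none * mat σ c0 none c = if c = c0 ∨ c = σ c0 then u none / 2 else 0 := by
    by_cases h3 : c = c0
    · have h4 : c ≠ σ c0 := fun e => h.one c0 (e.symm.trans h3)
      simp only [mat, Option.elim, if_pos h3, if_neg h4, if_pos (Or.inl h3 : c = c0 ∨ c = σ c0)]
      ring
    · by_cases h4 : c = σ c0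
      · simp only [mat, Option.elim, if_neg h3, if_pos h4, if_pos (Or.inr h4 : c = c0 ∨ c = σ c0)]
        ring
      · have h5 : ¬ (c = c0 ∨ c = σ c0) := by
          rintro (h | h)
          · exact h3 h
          · exact h4 h
        simp only [mat, Option.elim, if_neg h3, if_neg h4, if_neg h5]
        ring
  rw [h2]
  ring

/-- The inverse of the linear map. -/
noncomputable def psi (σ : Equiv.Perm C) (c0 : C) (x : C → ℝ) : Option C → ℝ
  | none => 2 * min (x c0) (x (σ c0))
  | some c => x c - if c = c0 ∨ c = σ c0 then min (x c0) (x (σ c0)) else 0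

omit [Fintype C] in
theorem psi_none (σ : Equiv.Perm C) (c0 : C) (x : C → ℝ) :
    psi σ c0 x none = 2 * min (x c0) (x (σ c0)) := rfl

omit [Fintype C] in
theorem psi_some (σ : Equiv.Perm C) (c0 : C) (x : C → ℝ) (c : C) :
    psi σ c0 x (some c) = x c - if c = c0 ∨ c = σ c0 then min (x c0) (x (σ c0)) else 0 := rfl

theorem lin_psi (σ : Equiv.Perm C) (c0 : C) (h : Cyc σ) (x : C → ℝ) :
    lin (mat σ c0) (psi σ c0 x) = x := by
  funext c
  rw [lin_mat σ c0 h, psi_none, psi_some]
  split_ifs
  · ring
  · ring

theorem psi_lin (σ : Equiv.Perm C) (c0 : C) (h : Cyc σ) (u : Option C → ℝ)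
    (hu : u ∈ coneX (opt σ c0)) : psi σ c0 (lin (mat σ c0) u) = u := by
  obtain ⟨h0, p, hp⟩ := hu
  have z : u (some c0) = 0 ∨ u (some (σ c0)) = 0 := by
    by_contra hn
    rw [not_or] at hn
    have h1 := hp _ hn.1
    have h2 := hp _ hn.2
    rcases p with _ | c
    · rw [opt_none] at h1 h2
      simp at h1
      exact h.one c0 h1.symm
    · rw [opt_some] at h1 h2
      by_cases hc : c = c0
      · rw [if_pos hc] at h1 h2
        simp at h2
        exact h.one c0 (h2.trans hc)
      · rw [if_neg hc] at h1 h2
        simp only [Option.some.injEq, EmbeddingLike.apply_eq_iff_eq] at h1 h2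
        rcases h1 with h1 | h1
        · exact hc h1.symm
        · rcases h2 with h2 | h2
          · apply h.two c0
            rw [h2]
            exact h1.symm
          · exact hc h2.symm
  have p1 : lin (mat σ c0) u c0 = u (some c0) + u none / 2 := by
    rw [lin_mat σ c0 h, if_pos (Or.inl rfl)]
  have p2 : lin (mat σ c0) u (σ c0) = u (some (σ c0)) + u none / 2 := by
    rw [lin_mat σ c0 h, if_pos (Or.inr rfl)]
  have n1 := h0 (some c0)
  have n2 := h0 (some (σ c0))
  have hm : min (lin (mat σ c0) u c0) (lin (mat σ c0) u (σ c0)) = u none / 2 := by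
    rw [p1, p2]
    rcases z with z | z
    · rw [z, min_eq_left (by linarith)]
      ring
    · rw [z, min_eq_right (by linarith)]
      ring
  funext v
  rcases v with _ | c
  · rw [psi_none, hm]
    ring
  · rw [psi_some, hm, lin_mat σ c0 h]
    split_ifs
    · ring
    · ring

theorem maps_lin (σ : Equiv.Perm C) (c0 : C) (h : Cyc σ) :
    Set.MapsTo (lin (mat σ c0)) (coneX (opt σ c0)) (coneX σ) := by
  rintro u ⟨h0, p, hp⟩
  have key : ∀ v, lin (mat σ c0) u v ≠ 0 →
      u (some v) ≠ 0 ∨ (u none ≠ 0 ∧ (v = c0 ∨ v = σ c0)) := by
    intro v hv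
    rw [lin_mat σ c0 h] at hv
    by_cases h1 : u (some v) = 0
    · right
      rw [h1, zero_add] at hv
      by_cases h2 : v = c0 ∨ v = σ c0
      · rw [if_pos h2] at hv
        exact ⟨fun h3 => hv (by rw [h3]; norm_num), h2⟩
      · rw [if_neg h2] at hv
        exact absurd rfl hv
    · exact Or.inl h1
  refine ⟨fun v => ?_, ?_⟩
  · rw [lin_mat σ c0 h]
    have h1 := h0 (some v)
    have h2 := h0 none
    split_ifs
    · linarith
    · linarith
  · rcases p with _ | c
    · refine ⟨c0, fun v hv => ?_⟩
      rcases key v hv with h1 | ⟨_, h1⟩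
      · have h2 := hp _ h1
        rw [opt_none] at h2
        simp at h2
        exact Or.inr h2
      · exact h1
    · by_cases hc : c = c0
      · refine ⟨c0, fun v hv => ?_⟩
        rcases key v hv with h1 | ⟨_, h1⟩
        · have h2 := hp _ h1
          rw [opt_some, if_pos hc] at h2
          simp at h2
          exact Or.inl (h2.trans hc)
        · exact h1
      · refine ⟨c, fun v hv => ?_⟩
        rcases key v hv with h1 | ⟨h1, _⟩
        · have h2 := hp _ h1
          rw [opt_some, if_neg hc] at h2
          simpa using h2
        · have h2 := hp _ h1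
          rw [opt_some, if_neg hc] at h2
          simp at h2

theorem maps_psi (σ : Equiv.Perm C) (c0 : C) (h : Cyc σ) :
    Set.MapsTo (psi σ c0) (coneX σ) (coneX (opt σ c0)) := by
  rintro x ⟨h0, c, hc⟩
  have n1 := h0 c0
  have n2 := h0 (σ c0)
  have hm : 0 ≤ min (x c0) (x (σ c0)) := le_min n1 n2
  refine ⟨?_, ?_⟩
  · rintro (_ | v)
    · rw [psi_none]
      linarith
    · rw [psi_some]
      split_ifs with h1
      · rcases h1 with rfl | rfl
        · linarith [min_le_left (x v) (x (σ v))]
        · linarith [min_le_right (x c0) (x (σ c0))]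
      · linarith [h0 v]
  · by_cases hcc : c = c0
    · subst hcc
      rcases le_total (x c) (x (σ c)) with hle | hle
      · refine ⟨none, ?_⟩
        rintro (_ | v) hv
        · exact Or.inl rfl
        · right
          rw [opt_none]
          rw [psi_some, min_eq_left hle] at hv
          by_cases h1 : v = c ∨ v = σ c
          · rw [if_pos h1] at hv
            rcases h1 with h1 | h1
            · exfalso
              apply hv
              rw [h1]
              ring
            · rw [h1]
          · rw [if_neg h1, sub_zero] at hv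
            exact absurd (hc v hv) h1
      · refine ⟨some c, ?_⟩
        rw [opt_some, if_pos rfl]
        rintro (_ | v) hv
        · exact Or.inr rfl
        · left
          rw [psi_some, min_eq_right hle] at hv
          by_cases h1 : v = c ∨ v = σ c
          · rw [if_pos h1] at hv
            rcases h1 with h1 | h1
            · rw [h1]
            · exfalso
              apply hv
              rw [h1]
              ring
          · rw [if_neg h1, sub_zero] at hv
            exact absurd (hc v hv) h1
    · -- one of `x c0`, `x (σ c0)` vanishes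
      have z : x c0 = 0 ∨ x (σ c0) = 0 := by
        by_contra hn
        rw [not_or] at hn
        rcases hc _ hn.1 with h1 | h1
        · exact hcc h1.symm
        · rcases hc _ hn.2 with h2 | h2
          · apply h.two c
            rw [← h1, h2]
          · exact hcc (σ.injective h2).symm
      have hmin : min (x c0) (x (σ c0)) = 0 := by
        rcases z with z | z
        · rw [z, min_eq_left n2]
        · rw [z, min_eq_right n1]
      refine ⟨some c, ?_⟩
      rw [opt_some, if_neg hcc]
      rintro (_ | v) hv
      · rw [psi_none, hmin, mul_zero] at hv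
        exact absurd rfl hv
      · rw [psi_some, hmin] at hv
        have hv' : x v ≠ 0 := by
          intro h1
          apply hv
          rw [h1]
          simp
        rcases hc v hv' with h1 | h1
        · exact Or.inl (by rw [h1])
        · exact Or.inr (by rw [h1])

theorem fine_opt (σ : Equiv.Perm C) (c0 : C) (h : Cyc σ) : Fine σ (opt σ c0) (mat σ c0) where
  nonneg := by
    rintro (_ | d) c
    · show (0 : ℝ) ≤ ((if c = c0 then 1 else 0) + (if c = σ c0 then 1 else 0)) / 2
      split_ifs <;> norm_num
    · show (0 : ℝ) ≤ if c = d then 1 else 0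
      split_ifs <;> norm_num
  sum := by
    rintro (_ | d)
    · show ∑ c, (((if c = c0 then (1 : ℝ) else 0) + (if c = σ c0 then 1 else 0)) / 2) = 1
      rw [← Finset.sum_div, Finset.sum_add_distrib]
      simp
    · show ∑ c, (if c = d then (1 : ℝ) else 0) = 1
      simp
  edge := by
    have hn : ∀ v, mat σ c0 none v ≠ 0 → v = c0 ∨ v = σ c0 := by
      intro v hv
      by_contra hc
      rw [not_or] at hc
      apply hv
      show ((if v = c0 then (1 : ℝ) else 0) + (if v = σ c0 then 1 else 0)) / 2 = 0
      rw [if_neg hc.1, if_neg hc.2]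
      norm_num
    have hs : ∀ d v, mat σ c0 (some d) v ≠ 0 → v = d := by
      intro d v hv
      by_contra hc
      apply hv
      show (if v = d then (1 : ℝ) else 0) = 0
      rw [if_neg hc]
    rintro (_ | d)
    · refine ⟨c0, ?_⟩
      rintro v (hv | hv)
      · exact hn v hv
      · rw [opt_none] at hv
        exact Or.inr (hs _ v hv)
    · by_cases hd : d = c0
      · refine ⟨c0, ?_⟩
        rintro v (hv | hv)
        · exact Or.inl ((hs _ v hv).trans hd)
        · rw [opt_some, if_pos hd] at hv
          exact hn v hv
      · refine ⟨d, ?_⟩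
        rintro v (hv | hv)
        · exact Or.inl (hs _ v hv)
        · rw [opt_some, if_neg hd] at hv
          exact Or.inr (hs _ v hv)
  bij := by
    refine Set.InvOn.bijOn (f' := psi σ c0) ⟨?_, ?_⟩ (maps_lin σ c0 h) (maps_psi σ c0 h)
    · intro u hu
      exact psi_lin σ c0 h u hu
    · intro x _
      exact lin_psi σ c0 h x

end Pool.Agent.H88ES.Cycle
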