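import Pool.Agent.H4ES.Final
import Pool.Agent.H30ES.JoinEx

/-!
Einstein metrics on 3-dimensional complexes whose edges have three colours: two opposite edges of
every tetrahedron are red and green, the other four are blue.
-/

namespace Pool.Agent.H88ES.Three

open Real Pool.Agent.H4ES Pool.Agent.H23ES

/-- Squared edge lengths `s` at the edge `01`, `u` at `23`, and `1` at the other four. -/
noncomputable def q3 (s u : ℝ) (b c : Fin 4) : ℝ :=
  if (b = 0 ∧ c = 1) ∨ (b = 1 ∧ c = 0) then s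
  else if (b = 2 ∧ c = 3) ∨ (b = 3 ∧ c = 2) then u else 1

/-- The angle at the edge with squared length `s`. -/
noncomputable def rA (s u : ℝ) : ℝ := arccos ((4 - s - 2 * u) / (4 - s))

/-- The angle at a blue edge. -/
noncomputable def rB (s u : ℝ) : ℝ := arccos (√(s * u) / √((4 - s) * (4 - u)))

theorem ar_q3 {s u : ℝ} (h0 : 0 < s) (h1 : 0 < u) (h2 : s + u < 4) :
    ∀ i j k : Fin 4, i ≠ j → i ≠ k → j ≠ k → 0 < ar (q3 s u) i j k := by
  have hs : 0 < s * (4 - s) := mul_pos h0 (by linarith)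
  have hu : 0 < u * (4 - u) := mul_pos h1 (by linarith)
  intro i j k
  fin_cases i <;> fin_cases j <;> fin_cases k <;> intro h1 h2 h3 <;>
    first
    | exact absurd rfl h1
    | exact absurd rfl h2
    | exact absurd rfl h3
    | (simp [ar, q3] <;> linarith)

theorem gr_q3 (s u : ℝ) : gr (q3 s u) = 4 * s * u * (4 - s - u) := by
  simp [gr, q3]
  ring

theorem th_q3 {s u : ℝ} (h0 : 0 < s) (h1 : 0 < u) (h2 : s + u < 4) (m : Fin 6) :
    th (q3 s u) m = if m = 0 then rA s u else if m = 5 then rA u s else rB s u := by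
  have hs4 : 0 < 4 - s := by linarith
  have hu4 : 0 < 4 - u := by linarith
  have hs : 0 < s * (4 - s) := mul_pos h0 hs4
  have hu : 0 < u * (4 - u) := mul_pos h1 hu4
  have mixed : ∀ m, nu (q3 s u) (ei m) (ej m) (ek m) (el m) = s * u →
      ar (q3 s u) (ei m) (ej m) (ek m) * ar (q3 s u) (ei m) (ej m) (el m) =
        (s * u) * ((4 - s) * (4 - u)) → th (q3 s u) m = rB s u := by
    intro m hn ha
    rw [th_of hn ha]
    unfold rB
    have hsu : 0 < s * u := mul_pos h0 h1
    rw [Real.sqrt_mul hsu.le]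
    congr 1
    have h3 : 0 < √(s * u) := Real.sqrt_pos.2 hsu
    have h4 : √(s * u) * √(s * u) = s * u := Real.mul_self_sqrt hsu.le
    rw [div_mul_eq_div_div]
    congr 1
    rw [div_eq_iff h3.ne', h4]
  fin_cases m
  · have hn : nu (q3 s u) (ei 0) (ej 0) (ek 0) (el 0) = s * (4 - s - 2 * u) := by
      simp [nu, q3, ei, ej, ek, el]
      ring_nf
      try simp
    have ha : ar (q3 s u) (ei 0) (ej 0) (ek 0) * ar (q3 s u) (ei 0) (ej 0) (el 0) =
        (s * (4 - s)) ^ 2 := by
      simp [ar, q3, ei, ej, ek, el]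
      ring
    show th (q3 s u) 0 = _
    rw [th_of hn ha, Real.sqrt_sq hs.le, mul_div_mul_left _ _ h0.ne']
    rfl
  · show th (q3 s u) 1 = rB s u
    apply mixed
    · simp [nu, q3, ei, ej, ek, el]
      ring
    · simp [ar, q3, ei, ej, ek, el]
      ring
  · show th (q3 s u) 2 = rB s u
    apply mixed
    · simp [nu, q3, ei, ej, ek, el]
      ring
    · simp [ar, q3, ei, ej, ek, el]
      ring
  · show th (q3 s u) 3 = rB s u
    apply mixed
    · simp [nu, q3, ei, ej, ek, el]
      ring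
    · simp [ar, q3, ei, ej, ek, el]
      ring
  · show th (q3 s u) 4 = rB s u
    apply mixed
    · simp [nu, q3, ei, ej, ek, el]
      ring
    · simp [ar, q3, ei, ej, ek, el]
      ring
  · have hn : nu (q3 s u) (ei 5) (ej 5) (ek 5) (el 5) = u * (4 - u - 2 * s) := by
      simp [nu, q3, ei, ej, ek, el]
      ring_nf
      try simp
    have ha : ar (q3 s u) (ei 5) (ej 5) (ek 5) * ar (q3 s u) (ei 5) (ej 5) (el 5) =
        (u * (4 - u)) ^ 2 := by
      simp [ar, q3, ei, ej, ek, el]
      ring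
    show th (q3 s u) 5 = rA u s
    rw [th_of hn ha, Real.sqrt_sq hu.le, mul_div_mul_left _ _ h1.ne']
    rfl

/-- The four points. -/
noncomputable def pt3 (s u : ℝ) : Fin 4 → EuclideanSpace ℝ (Fin 3) :=
  ![!₂[√s / 2, 0, 0], !₂[-(√s / 2), 0, 0], !₂[0, √u / 2, √(1 - s / 4 - u / 4)],
    !₂[0, -(√u / 2), √(1 - s / 4 - u / 4)]]

theorem pt3_dist {s u : ℝ} (h0 : 0 < s) (h1 : 0 < u) (h2 : s + u < 4) (i j : Fin 4)
    (hij : i ≠ j) : Dist.dist (pt3 s u i) (pt3 s u j) ^ 2 = q3 s u i j := by
  have e1 : √s ^ 2 = s := Real.sq_sqrt h0.le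
  have e3 : √u ^ 2 = u := Real.sq_sqrt h1.le
  have e2 : √(1 - s / 4 - u / 4) ^ 2 = 1 - s / 4 - u / 4 := Real.sq_sqrt (by linarith)
  have hsq : ∀ a b : EuclideanSpace ℝ (Fin 3), Dist.dist a b ^ 2 =
      (a 0 - b 0) ^ 2 + (a 1 - b 1) ^ 2 + (a 2 - b 2) ^ 2 := by
    intro a b
    rw [EuclideanSpace.dist_eq, Real.sq_sqrt (Finset.sum_nonneg fun _ _ => sq_nonneg _),
      Fin.sum_univ_three]
    simp only [Real.dist_eq, sq_abs]
  rw [hsq]
  fin_cases i <;> fin_cases j <;> simp [pt3, q3] at hij ⊢ <;> nlinarith [e1, e2, e3]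

theorem pt3_indep {s u : ℝ} (h0 : 0 < s) (h1 : 0 < u) (h2 : s + u < 4) :
    AffineIndependent ℝ (pt3 s u) := by
  rw [affineIndependent_iff_of_fintype]
  intro w hw h
  rw [Finset.weightedVSub_eq_linear_combination _ hw] at h
  have f1 : 0 < √s := Real.sqrt_pos.2 h0
  have f3 : 0 < √u := Real.sqrt_pos.2 h1
  have f2 : 0 < √(1 - s / 4 - u / 4) := Real.sqrt_pos.2 (by linarith)
  rw [Fin.sum_univ_four] at hw h
  have e0 := congrArg (fun x : EuclideanSpace ℝ (Fin 3) => x 0) h
  have e1 := congrArg (fun x : EuclideanSpace ℝ (Fin 3) => x 1) h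
  have e2 := congrArg (fun x : EuclideanSpace ℝ (Fin 3) => x 2) h
  simp [pt3] at e0 e1 e2
  have g0 : w 0 = w 1 := by
    have : (w 0 - w 1) * √s = 0 := by linarith
    rcases mul_eq_zero.1 this with h | h
    · linarith
    · exact absurd h f1.ne'
  have g1 : w 2 = w 3 := by
    have : (w 2 - w 3) * √u = 0 := by linarith
    rcases mul_eq_zero.1 this with h | h
    · linarith
    · exact absurd h f3.ne'
  have g2 : w 2 + w 3 = 0 := by
    have : (w 2 + w 3) * √(1 - s / 4 - u / 4) = 0 := by linarith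
    rcases mul_eq_zero.1 this with h | h
    · exact h
    · exact absurd h f2.ne'
  intro i
  fin_cases i
  · show w 0 = 0
    linarith
  · show w 1 = 0
    linarith
  · show w 2 = 0
    linarith
  · show w 3 = 0
    linarith

variable {V ι : Type} [DecidableEq V] [Fintype ι] [DecidableEq ι]

/-- Three colours: `l` at the edge `01`, `r` at the edge `23` of every tetrahedron. -/
theorem three (K : Cplx V ι) (l r : Sym2 V → Prop) [DecidablePred l] [DecidablePred r] (a b : ℕ)
    (ha3 : 3 ≤ a) (hb3 : 3 ≤ b)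
    (hl : ∀ T m, l (K.ed T m) ↔ m = 0) (hr : ∀ T m, r (K.ed T m) ↔ m = 5)
    (hdeg : ∀ e ∈ K.edges, (l e → K.deg e = b) ∧ (r e → K.deg e = a) ∧
      (¬ l e → ¬ r e → K.deg e = 4)) :
    ∃ s u : ℝ, 0 < s ∧ 0 < u ∧ s + u < 4 ∧
      K.IsEinstein (fun e => if l e then s else if r e then u else 1) := by
  obtain ⟨s, u, hs, hu, hsu, hg1, hg2⟩ := Pool.Agent.H30ES.join_exists a b ha3 hb3
  set z : Sym2 V → ℝ := fun e => if l e then s else if r e then u else 1 with hz
  have hlr : ∀ e ∈ K.edges, l e → ¬ r e := by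
    intro e he h1 h2
    obtain ⟨⟨T, m⟩, -, rfl⟩ := Finset.mem_image.1 he
    have h3 := (hl T m).1 h1
    have h4 := (hr T m).1 h2
    rw [h3] at h4
    exact absurd h4 (by decide)
  have hsq : ∀ T (b c : Fin 4), b ≠ c → K.sq z T b c = q3 s u b c := by
    have h1 : ∀ T m, z (K.ed T m) = q3 s u (ei m) (ej m) := by
      intro T m
      simp only [hz, hl T m, hr T m]
      fin_cases m <;> simp [q3, ei, ej]
    have h2 : ∀ b c : Fin 4, b ≠ c → ∃ m, (b = ei m ∧ c = ej m) ∨ (b = ej m ∧ c = ei m) := by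
      decide
    have h3 : ∀ m, q3 s u (ej m) (ei m) = q3 s u (ei m) (ej m) := by
      intro m
      fin_cases m <;> simp [q3, ei, ej]
    intro T b c hbc
    obtain ⟨m, ⟨rfl, rfl⟩ | ⟨rfl, rfl⟩⟩ := h2 b c hbc
    · exact h1 T m
    · rw [h3 m, ← h1 T m]
      unfold Cplx.sq Cplx.ed
      rw [Sym2.eq_swap]
  have hth : ∀ T m, th (K.sq z T) m = if m = 0 then rA s u else if m = 5 then rA u s
      else rB s u := by
    intro T m
    rw [th_congr (hsq T) m, th_q3 hs hu hsu]
  have hzpos : ∀ e, 0 < z e := by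
    intro e
    simp only [hz]
    split_ifs
    · exact hs
    · exact hu
    · exact one_pos
  have hcurv : ∀ e ∈ K.edges, ∀ t : ℝ, (∀ T m, K.ed T m = e → th (K.sq z T) m = t) →
      K.curv z e = 1 - K.deg e * t / (2 * π) := by
    intro e he t ht
    unfold Cplx.curv
    rw [← K.sum_deg, Finset.sum_mul, Finset.sum_div]
    congr 1
    refine Finset.sum_congr rfl fun T _ => ?_
    rw [Finset.sum_mul, Finset.sum_div]
    refine Finset.sum_congr rfl fun m _ => ?_
    split_ifs with h1
    · rw [ht T m h1]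
      ring
    · ring
  have hA : ∀ e ∈ K.edges, l e → K.curv z e = 1 - b * rA s u / (2 * π) := by
    intro e he hle
    rw [hcurv e he (rA s u), (hdeg e he).1 hle]
    intro T m hm
    have := (hl T m).1 (hm ▸ hle)
    rw [hth, if_pos this]
  have hB : ∀ e ∈ K.edges, r e → K.curv z e = 1 - a * rA u s / (2 * π) := by
    intro e he hre
    rw [hcurv e he (rA u s), (hdeg e he).2.1 hre]
    intro T m hm
    have := (hr T m).1 (hm ▸ hre)
    rw [hth, if_neg (by rw [this]; decide), if_pos this]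
  have hC : ∀ e ∈ K.edges, ¬ l e → ¬ r e → K.curv z e = 1 - 4 * rB s u / (2 * π) := by
    intro e he hle hre
    rw [hcurv e he (rB s u), (hdeg e he).2.2 hle hre]
    · norm_num
    · intro T m hm
      have h1 : m ≠ 0 := fun h => hle (hm ▸ (hl T m).2 h)
      have h2 : m ≠ 5 := fun h => hre (hm ▸ (hr T m).2 h)
      rw [hth, if_neg h1, if_neg h2]
  refine ⟨s, u, hs, hu, hsu, ?_, (1 - 4 * rB s u / (2 * π)) / 2, ?_⟩
  · intro T
    refine ⟨pt3 s u, pt3_indep hs hu hsu, fun b c hbc => ?_⟩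
    rw [pt3_dist hs hu hsu b c hbc, hsq T b c hbc]
  · intro e he
    have h := K.hasDeriv_total z e he (hzpos e) fun T => K.tet_deriv z e T
      (fun b c hbc => hzpos _)
      (fun i j k h1 h2 h3 => by
        rw [ar_congr (hsq T) h1 h2 h3]
        exact ar_q3 hs hu hsu i j k h1 h2 h3)
      (by
        rw [gr_congr (hsq T), gr_q3]
        have : 0 < 4 - s - u := by linarith
        positivity)
    refine h.congr_deriv ?_
    show K.curv z e / (2 * √(z e)) = (1 - 4 * rB s u / (2 * π)) / 2 * z e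
    by_cases hle : l e
    · have hze : z e = s := if_pos hle
      rw [hA e he hle, hze]
      have h1 : 1 - b * rA s u / (2 * π) = s * √s * (1 - 4 * rB s u / (2 * π)) := hg1
      rw [h1]
      have : 0 < √s := Real.sqrt_pos.2 hs
      field_simp
    · by_cases hre : r e
      · have hze : z e = u := by
          simp only [hz]
          rw [if_neg hle, if_pos hre]
        rw [hB e he hre, hze]
        have h1 : 1 - a * rA u s / (2 * π) = u * √u * (1 - 4 * rB s u / (2 * π)) := hg2
        rw [h1]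
        have : 0 < √u := Real.sqrt_pos.2 hu
        field_simp
      · have hze : z e = 1 := by
          simp only [hz]
          rw [if_neg hle, if_neg hre]
        rw [hC e he hle hre, hze, Real.sqrt_one]
        ring

end Pool.Agent.H88ES.Three
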